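import Pool.Agent.helper22.RG9.Spec2

/-!
# Project rg9 (MP_a2a22c_al), row NR2: the Lie algebra of a power representation does not depend on the conjugate
(model: NRM, helper44)
-/

set_option autoImplicit false

namespace Pool.Agent.RG9

open Matrix Pool.Agent.H48SL Pool.Agent.UG

theorem NR2_third {m : ℕ} (hm : 3 ≤ m) (i j : Fin m) : ∃ p : Fin m, i ≠ p ∧ p ≠ j := by
  by_contra h
  push Not at h
  have h1 : (Finset.univ : Finset (Fin m)) ⊆ {i, j} := by
    intro p _
    by_cases hp : i = p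
    · simp [hp]
    · simp [h p hp]
  have h2 := (Finset.card_le_card h1).trans Finset.card_le_two
  rw [Finset.card_univ, Fintype.card_fin] at h2
  omega

theorem NR2 (hIMG : IMG_stmt) (hWGI : WGI_stmt) (hBR3 : BR3_stmt) (hCJ2 : CJ2_stmt)
    (hLIE : LIE_stmt) : NR2_stmt := by
  intro D _ n m N k hm hN hk F₀ hF₀ X hX d₀ hd₀
  have hNk : 1 ≤ N * k := Nat.mul_pos hN hk
  have hG : ∀ F : D → SLZ n, PR k F →
      LGr (fun i j => LE (N * k * n.factorial) (im F (X i j))) := fun F hF =>
    hBR3 n m (N * k) hm hNk _ (hWGI D n m N k hm F hF X hX)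
  have hconj : ∀ F : D → SLZ n, PR k F → ∀ d : D, PR k (fun y => F (d * y * d⁻¹)) := fun F hF =>
    (hIMG D n k F hF).2.2
  -- a root subgroup
  have h1 : ∀ F : D → SLZ n, PR k F → ∀ p q, p ≠ q → ∀ x ∈ X p q, ∀ i j, i ≠ j →
      LE (N * k * n.factorial) (im (fun y => F (x * y * x⁻¹)) (X i j)) ≤
        SS (fun i j => LE (N * k * n.factorial) (im F (X i j))) := by
    intro F hF p q hpq x hx i j hij
    by_cases hc : p = j ∧ q = i
    · obtain ⟨r, hir, hrj⟩ := NR2_third hm i j
      have e := (hG _ (hconj F hF x)).gen i r j hir hrj hij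
      rw [e]
      refine Submodule.span_le.mpr ?_
      rintro _ ⟨U, hU, V, hV, rfl⟩
      exact (hLIE n m hm _ (hG F hF)).2 _
        (hCJ2 D n m N k hm F hF X hX i r p q hir hpq (fun h => hrj (h.1.symm.trans hc.1)) x hx hU) _
        (hCJ2 D n m N k hm F hF X hX r j p q hrj hpq (fun h => hir (hc.2.symm.trans h.2)) x hx hV)
    · exact hCJ2 D n m N k hm F hF X hX i j p q hij hpq hc x hx
  have h2 : ∀ F : D → SLZ n, PR k F → ∀ p q, p ≠ q → ∀ x ∈ X p q,
      SS (fun i j => LE (N * k * n.factorial) (im (fun y => F (x * y * x⁻¹)) (X i j))) ≤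
        SS (fun i j => LE (N * k * n.factorial) (im F (X i j))) := by
    intro F hF p q hpq x hx
    refine Submodule.span_le.mpr ?_
    rintro Z (⟨i, j, hij, hZ⟩ | ⟨i, j, hij, A, hA, B, hB, rfl⟩)
    · exact h1 F hF p q hpq x hx i j hij hZ
    · exact (hLIE n m hm _ (hG F hF)).2 _ (h1 F hF p q hpq x hx i j hij hA) _
        (h1 F hF p q hpq x hx j i hij.symm hB)
  have h3 : ∀ d ∈ gd X, ∀ F : D → SLZ n, PR k F →
      SS (fun i j => LE (N * k * n.factorial) (im (fun y => F (d * y * d⁻¹)) (X i j))) ≤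
        SS (fun i j => LE (N * k * n.factorial) (im F (X i j))) ∧
      SS (fun i j => LE (N * k * n.factorial) (im (fun y => F (d⁻¹ * y * d⁻¹⁻¹)) (X i j))) ≤
        SS (fun i j => LE (N * k * n.factorial) (im F (X i j))) := by
    intro d hd
    induction hd using Subgroup.closure_induction with
    | mem d hd =>
      obtain ⟨p, q, hpq, hx⟩ := hd
      exact fun F hF => ⟨h2 F hF p q hpq d hx, h2 F hF p q hpq d⁻¹ (inv_mem hx)⟩
    | one =>
      intro F _
      have e1 : (fun y => F (1 * y * 1⁻¹)) = F := by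
        funext y
        rw [inv_one, mul_one, one_mul]
      have e2 : (fun y => F (1⁻¹ * y * 1⁻¹⁻¹)) = F := by
        funext y
        rw [inv_one, inv_one, mul_one, one_mul]
      rw [e1, e2]
      exact ⟨le_rfl, le_rfl⟩
    | mul a b _ _ iha ihb =>
      intro F hF
      constructor
      · have e : (fun y => F (a * b * y * (a * b)⁻¹)) =
            fun y => (fun z => F (a * z * a⁻¹)) (b * y * b⁻¹) := by
          funext y
          show F (a * b * y * (a * b)⁻¹) = F (a * (b * y * b⁻¹) * a⁻¹)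
          rw [_root_.mul_inv_rev]
          simp only [mul_assoc]
        rw [e]
        exact ((ihb _ (hconj F hF a)).1).trans (iha F hF).1
      · have e : (fun y => F ((a * b)⁻¹ * y * (a * b)⁻¹⁻¹)) =
            fun y => (fun z => F (b⁻¹ * z * b⁻¹⁻¹)) (a⁻¹ * y * a⁻¹⁻¹) := by
          funext y
          show F ((a * b)⁻¹ * y * (a * b)⁻¹⁻¹) = F (b⁻¹ * (a⁻¹ * y * a⁻¹⁻¹) * b⁻¹⁻¹)
          rw [_root_.mul_inv_rev, _root_.mul_inv_rev]
          simp only [mul_assoc]
        rw [e]
        exact ((iha _ (hconj F hF b⁻¹)).2).trans (ihb F hF).2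
    | inv a _ ih =>
      intro F hF
      obtain ⟨i1, i2⟩ := ih F hF
      refine ⟨i2, ?_⟩
      rw [inv_inv]
      exact i1
  exact (h3 d₀ hd₀ F₀ hF₀).1

end Pool.Agent.RG9
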